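import Pool.Agent.Lib.MP_898cae_lc.Unc

/-!
There is a model of ZFC in which some maximal subalgebra of the Borel algebra of the Cantor space
with property (T) has exactly `ℵ₁` members modulo null sets, while `ℵ₁ < c = cov(M)`.
-/

namespace Pool.Agent.Results.MP_898cae_lc.ModNullAleph1CovM

open Pool.Agent.Lib.MP_898cae_lc

theorem result : ∃ (M : Type 1) (E : M → M → Prop), ZFC E ∧ PropCov E := main_cov

end Pool.Agent.Results.MP_898cae_lc.ModNullAleph1CovM
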