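import Mathlib

set_option autoImplicit false

open MeasureTheory ProbabilityTheory Set Cardinal

namespace Pool.Agent.Results.MP_898cae_lc.PropTEqContinuum

/-- The Cantor space, with `0 ∈ ℕ`; `false` is `0` and `true` is `1`. -/
abbrev Cantor : Type := ℕ → Bool

/-- The standard product measure on the Cantor space (fair coin in every coordinate). -/
noncomputable def lam : Measure Cantor :=
  Measure.infinitePi (fun _ : ℕ => uniformOn (Set.univ : Set Bool))

/-- The set `V_m^i` of points whose `m`-th coordinate is `i`. -/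
def V (m : ℕ) (i : Bool) : Set Cantor := {x | x m = i}

/-- The atom of the finite algebra `A_n` that contains `y`: the cylinder fixing the coordinates
`0, …, n`. -/
def atom (n : ℕ) (y : Cantor) : Set Cantor := {x | ∀ k ≤ n, x k = y k}

/-- The functional `φ_m`. -/
noncomputable def phi (m : ℕ) (A : Set Cantor) : ℝ :=
  |lam.real (A ∩ V m false) - lam.real (A ∩ V m true)|

/-- A subalgebra of the Borel algebra that contains the clopen algebra and has property (T). -/
def HasT (B : BooleanSubalgebra (Set Cantor)) : Prop :=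
  (∀ A ∈ B, MeasurableSet[borel Cantor] A) ∧
  (∀ A : Set Cantor, IsClopen A → A ∈ B) ∧
  ∀ (p : ℕ) (A : Fin p → Set Cantor), (∀ i, A i ∈ B) → ∀ ε : ℝ, 0 < ε →
    ∃ n : ℕ, 0 < n ∧ ∀ (y : Cantor) (i : Fin p),
      (lam.real (A i ∩ atom n y) ≤ ε * lam.real (atom n y) / n ∨
        lam.real (atom n y \ A i) ≤ ε * lam.real (atom n y) / n) ∧
      ∀ m : ℕ, n < m → phi m (A i ∩ atom n y) ≤ ε * lam.real (atom n y) / m

/-- The least cardinality of a maximal subalgebra with property (T). -/
noncomputable def propT : Cardinal.{0} :=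
  sInf {c | ∃ B : BooleanSubalgebra (Set Cantor), Maximal HasT B ∧ #B = c}

lemma borel_iff (A : Set Cantor) : MeasurableSet[borel Cantor] A ↔ MeasurableSet A := by
  rw [← BorelSpace.measurable_eq (α := Cantor)]

lemma coin_singleton (b : Bool) : uniformOn (Set.univ : Set Bool) {b} = 2⁻¹ := by
  rw [uniformOn_univ]
  simp

lemma lam_pi (s : Finset ℕ) (y : Cantor) :
    lam (Set.pi (s : Set ℕ) (fun k => {y k})) = 2⁻¹ ^ s.card := by
  unfold lam
  rw [Measure.infinitePi_pi _ (fun i _ => measurableSet_singleton _)]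
  simp only [coin_singleton, Finset.prod_const]

lemma atom_eq (n : ℕ) (y : Cantor) :
    atom n y = Set.pi (Finset.range (n + 1) : Set ℕ) (fun k => {y k}) := by
  ext x
  simp [atom]

lemma atom_inter_V (n m : ℕ) (h : n < m) (y : Cantor) (b : Bool) :
    atom n y ∩ V m b = Set.pi (insert m (Finset.range (n + 1)) : Finset ℕ)
      (fun k => {Function.update y m b k}) := by
  ext x
  simp only [atom, V, mem_inter_iff, mem_ofPred_eq, Finset.coe_insert, Finset.coe_range,
    Set.mem_pi, mem_insert_iff, mem_Iio, mem_singleton_iff]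
  constructor
  · rintro ⟨h1, h2⟩ k (rfl | hk)
    · simpa using h2
    · have : k ≠ m := by omega
      rw [Function.update_of_ne this]
      exact h1 k (by omega)
  · intro h1
    refine ⟨fun k hk => ?_, ?_⟩
    · have : k ≠ m := by omega
      have h2 := h1 k (Or.inr (by omega))
      rwa [Function.update_of_ne this] at h2
    · simpa using h1 m (Or.inl rfl)

lemma phi_atom (n m : ℕ) (h : n < m) (y : Cantor) : phi m (atom n y) = 0 := by
  unfold phi
  simp only [Measure.real]
  rw [atom_inter_V n m h, atom_inter_V n m h, lam_pi, lam_pi]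
  simp

lemma lam_singleton (y : Cantor) : lam {y} = 0 := by
  have h : ∀ n : ℕ, lam {y} ≤ 2⁻¹ ^ n := by
    intro n
    have h1 : ({y} : Set Cantor) ⊆ Set.pi (Finset.range n : Set ℕ) (fun k => {y k}) := by
      rintro x rfl k _
      rfl
    simpa [lam_pi] using (measure_mono h1).trans_eq (lam_pi _ y)
  have ht : Filter.Tendsto (fun n : ℕ => (2⁻¹ : ENNReal) ^ n) Filter.atTop (nhds 0) :=
    ENNReal.tendsto_pow_atTop_nhds_zero_of_lt_one (by norm_num)
  exact le_antisymm (ge_of_tendsto' ht h) bot_le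

lemma isOpen_atom (n : ℕ) (y : Cantor) : IsOpen (atom n y) := by
  rw [atom_eq]
  exact isOpen_set_pi (Finset.finite_toSet _) (fun _ _ => isOpen_discrete _)

lemma atom_anti {n m : ℕ} (h : n ≤ m) (y : Cantor) : atom m y ⊆ atom n y :=
  fun _ hx k hk => hx k (hk.trans h)

lemma exists_atom_subset {A : Set Cantor} (hA : IsOpen A) {y : Cantor} (hy : y ∈ A) :
    ∃ n, atom n y ⊆ A := by
  obtain ⟨I, u, hu, hsub⟩ := isOpen_pi_iff.1 hA y hy
  refine ⟨I.sup id, fun x hx => hsub fun k hk => ?_⟩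
  rw [hx k (Finset.le_sup (f := id) hk)]
  exact (hu k hk).2

lemma clopen_level {A : Set Cantor} (hA : IsClopen A) :
    ∃ N, ∀ n, N ≤ n → ∀ y, atom n y ⊆ A ∨ atom n y ⊆ Aᶜ := by
  have h : ∀ y : Cantor, ∃ n, atom n y ⊆ A ∨ atom n y ⊆ Aᶜ := by
    intro y
    by_cases hy : y ∈ A
    · obtain ⟨n, hn⟩ := exists_atom_subset hA.isOpen hy
      exact ⟨n, Or.inl hn⟩
    · obtain ⟨n, hn⟩ := exists_atom_subset hA.compl.isOpen hy
      exact ⟨n, Or.inr hn⟩
  choose f hf using h
  obtain ⟨t, ht⟩ := isCompact_univ.elim_finite_subcover (fun y => atom (f y) y)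
    (fun y => isOpen_atom _ _) (fun y _ => mem_iUnion.2 ⟨y, fun _ _ => rfl⟩)
  refine ⟨t.sup f, fun n hn y => ?_⟩
  obtain ⟨z, hz, hyz⟩ := mem_iUnion₂.1 (ht (mem_univ y))
  have hle : f z ≤ n := (Finset.le_sup hz).trans hn
  have hsub : atom n y ⊆ atom (f z) z := fun x hx k hk =>
    (hx k (hk.trans hle)).trans (hyz k hk)
  rcases hf z with h | h
  · exact Or.inl (hsub.trans h)
  · exact Or.inr (hsub.trans h)

/-- The clopen algebra. -/
def clopenAlg : BooleanSubalgebra (Set Cantor) where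
  carrier := {A | IsClopen A}
  supClosed' := fun _ ha _ hb => IsClopen.union ha hb
  infClosed' := fun _ ha _ hb => IsClopen.inter ha hb
  compl_mem' := fun ha => IsClopen.compl ha
  bot_mem' := isClopen_empty

lemma hasT_clopenAlg : HasT clopenAlg := by
  refine ⟨fun A hA => (borel_iff A).2 (IsClopen.isOpen hA).measurableSet, fun A hA => hA, ?_⟩
  intro p A hA ε hε
  choose N hN using fun i => clopen_level (hA i)
  refine ⟨Finset.univ.sup N + 1, Nat.succ_pos _, fun y i => ?_⟩
  have hle : N i ≤ Finset.univ.sup N + 1 :=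
    (Finset.le_sup (Finset.mem_univ i)).trans (Nat.le_succ _)
  set n := Finset.univ.sup N + 1
  have hnn : ∀ m : ℕ, 0 ≤ ε * lam.real (atom n y) / m := fun m => by positivity
  rcases hN i n hle y with h | h
  · refine ⟨Or.inr ?_, fun m hm => ?_⟩
    · rw [sdiff_eq_empty.2 h]
      simpa using hnn n
    · rw [inter_eq_right.2 h, phi_atom n m hm]
      exact hnn m
  · have he : A i ∩ atom n y = ∅ := by
      ext x
      exact ⟨fun hx => h hx.2 hx.1, fun hx => hx.elim⟩
    refine ⟨Or.inl ?_, fun m hm => ?_⟩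
    · rw [he]
      simpa using hnn n
    · rw [he]
      simpa [phi] using hnn m

lemma exists_maximal : ∃ B, Maximal HasT B := by
  have := zorn_le_nonempty₀ {B | HasT B} ?_ clopenAlg hasT_clopenAlg
  · obtain ⟨m, -, hm⟩ := this
    exact ⟨m, hm⟩
  intro c hc hchain B₀ hB₀
  have hdir : ∀ a ∈ c, ∀ b ∈ c, ∃ d ∈ c, a ≤ d ∧ b ≤ d := by
    intro a ha b hb
    rcases hchain.total ha hb with h | h
    · exact ⟨b, hb, h, le_rfl⟩
    · exact ⟨a, ha, le_rfl, h⟩
  let U : BooleanSubalgebra (Set Cantor) :=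
    { carrier := {A | ∃ B ∈ c, A ∈ B}
      supClosed' := by
        rintro a ⟨Ba, hBa, ha⟩ b ⟨Bb, hBb, hb⟩
        obtain ⟨d, hd, h1, h2⟩ := hdir Ba hBa Bb hBb
        exact ⟨d, hd, BooleanSubalgebra.sup_mem (h1 ha) (h2 hb)⟩
      infClosed' := by
        rintro a ⟨Ba, hBa, ha⟩ b ⟨Bb, hBb, hb⟩
        obtain ⟨d, hd, h1, h2⟩ := hdir Ba hBa Bb hBb
        exact ⟨d, hd, BooleanSubalgebra.inf_mem (h1 ha) (h2 hb)⟩
      compl_mem' := by
        rintro a ⟨Ba, hBa, ha⟩
        exact ⟨Ba, hBa, BooleanSubalgebra.compl_mem ha⟩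
      bot_mem' := ⟨B₀, hB₀, BooleanSubalgebra.bot_mem⟩ }
  refine ⟨U, ⟨?_, ?_, ?_⟩, fun z hz A hA => ⟨z, hz, hA⟩⟩
  · rintro A ⟨B, hB, hA⟩
    exact (hc hB).1 A hA
  · intro A hA
    exact ⟨B₀, hB₀, (hc hB₀).2.1 A hA⟩
  · intro p A hA ε hε
    have hex : ∀ s : Finset (Fin p), ∃ B ∈ c, ∀ i ∈ s, A i ∈ B := by
      intro s
      induction s using Finset.induction_on with
      | empty => exact ⟨B₀, hB₀, by simp⟩
      | insert j s _ ih =>
        obtain ⟨B, hB, hs⟩ := ih
        obtain ⟨B', hB', hj⟩ := hA j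
        obtain ⟨d, hd, h1, h2⟩ := hdir B hB B' hB'
        refine ⟨d, hd, fun i hi => ?_⟩
        rcases Finset.mem_insert.1 hi with rfl | hi
        · exact h2 hj
        · exact h1 (hs i hi)
    obtain ⟨B, hB, hs⟩ := hex Finset.univ
    exact (hc hB).2.2 p A (fun i => hs i (Finset.mem_univ i)) ε hε

/-- The Borel sets that agree almost everywhere with a member of `B`. -/
def nullExt (B : BooleanSubalgebra (Set Cantor)) : BooleanSubalgebra (Set Cantor) where
  carrier := {A | MeasurableSet A ∧ ∃ A' ∈ B, A =ᵐ[lam] A'}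
  supClosed' := by
    rintro a ⟨ha, a', ha', h1⟩ b ⟨hb, b', hb', h2⟩
    exact ⟨ha.union hb, a' ∪ b', BooleanSubalgebra.sup_mem ha' hb', h1.union h2⟩
  infClosed' := by
    rintro a ⟨ha, a', ha', h1⟩ b ⟨hb, b', hb', h2⟩
    exact ⟨ha.inter hb, a' ∩ b', BooleanSubalgebra.inf_mem ha' hb', h1.inter h2⟩
  compl_mem' := by
    rintro a ⟨ha, a', ha', h1⟩
    exact ⟨ha.compl, a'ᶜ, BooleanSubalgebra.compl_mem ha', h1.compl⟩
  bot_mem' := ⟨MeasurableSet.empty, ∅, BooleanSubalgebra.bot_mem, Filter.EventuallyEq.rfl⟩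

lemma le_nullExt {B : BooleanSubalgebra (Set Cantor)} (hB : HasT B) : B ≤ nullExt B :=
  fun A hA => ⟨(borel_iff A).1 (hB.1 A hA), A, hA, Filter.EventuallyEq.rfl⟩

lemma hasT_nullExt {B : BooleanSubalgebra (Set Cantor)} (hB : HasT B) : HasT (nullExt B) := by
  refine ⟨fun A hA => (borel_iff A).2 hA.1, fun A hA => le_nullExt hB (hB.2.1 A hA), ?_⟩
  intro p A hA ε hε
  choose A' hA' hae using fun i => (hA i).2
  obtain ⟨n, hn, h⟩ := hB.2.2 p A' hA' ε hε
  refine ⟨n, hn, fun y i => ?_⟩
  have e1 : lam.real (A i ∩ atom n y) = lam.real (A' i ∩ atom n y) :=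
    measureReal_congr ((hae i).inter Filter.EventuallyEq.rfl)
  have e2 : lam.real (atom n y \ A i) = lam.real (atom n y \ A' i) :=
    measureReal_congr (Filter.EventuallyEq.rfl.diff (hae i))
  have e3 : ∀ m, phi m (A i ∩ atom n y) = phi m (A' i ∩ atom n y) := by
    intro m
    have e4 : ∀ b, lam.real (A i ∩ atom n y ∩ V m b) = lam.real (A' i ∩ atom n y ∩ V m b) :=
      fun b => measureReal_congr
        (((hae i).inter Filter.EventuallyEq.rfl).inter Filter.EventuallyEq.rfl)
    unfold phi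
    rw [e4, e4]
  rw [e1, e2]
  exact ⟨(h y i).1, fun m hm => (e3 m).trans_le ((h y i).2 m hm)⟩

lemma mk_cantor : #Cantor = 𝔠 := by
  simp [Cantor]

lemma card_borel_le : #{A : Set Cantor | MeasurableSet A} ≤ 𝔠 := by
  have h := MeasurableSpace.cardinal_measurableSet_le_continuum
    (s := MeasurableSpace.countableGeneratingSet Cantor)
    ((MeasurableSpace.countable_countableGeneratingSet.le_aleph0).trans aleph0_le_continuum)
  rwa [MeasurableSpace.generateFrom_countableGeneratingSet] at h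

lemma card_maximal {B : BooleanSubalgebra (Set Cantor)} (hB : Maximal HasT B) : #B = 𝔠 := by
  apply le_antisymm
  · refine le_trans ?_ card_borel_le
    exact mk_le_mk_of_subset (s := (B : Set (Set Cantor)))
      (fun A hA => (borel_iff A).1 (hB.prop.1 A hA))
  · have hle : nullExt B ≤ B := hB.le_of_ge (hasT_nullExt hB.prop) (le_nullExt hB.prop)
    have hs : ∀ y : Cantor, ({y} : Set Cantor) ∈ B := fun y =>
      hle ⟨measurableSet_singleton y, ∅, BooleanSubalgebra.bot_mem,
        ae_eq_empty.2 (lam_singleton y)⟩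
    rw [← mk_cantor]
    refine mk_le_of_injective (f := fun y : Cantor => (⟨{y}, hs y⟩ : B)) ?_
    intro y z h
    exact singleton_injective (congrArg Subtype.val h)

theorem result : propT = 𝔠 := by
  have : {c | ∃ B : BooleanSubalgebra (Set Cantor), Maximal HasT B ∧ #B = c} = {𝔠} := by
    ext c
    constructor
    · rintro ⟨B, hB, rfl⟩
      exact card_maximal hB
    · rintro rfl
      obtain ⟨B, hB⟩ := exists_maximal
      exact ⟨B, hB, card_maximal hB⟩
  unfold propT
  rw [this]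
  exact csInf_singleton _

end Pool.Agent.Results.MP_898cae_lc.PropTEqContinuum
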